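import Mathlib

/-! Trace operators attached to an element of a group ring of a symmetric group which annihilates
all generalised multilinear words of a ring. -/

namespace Pool.Agent.N22.LV

set_option linter.unusedSectionVars false

open Finset

universe u v

section

variable {K : Type v} [CommRing K] {A : Type u} [Ring A] [Algebra K A]

/-- generalised multilinear word: the product of the blocks `a * x i * b` -/
def wd {n : ℕ} (l : List (A × Fin n × A)) (x : Fin n → A) : A :=
  (l.map fun t => t.1 * x t.2.1 * t.2.2).prod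

/-- every variable occurs exactly once -/
def Ml {n : ℕ} (l : List (A × Fin n × A)) : Prop :=
  (l.map fun t => t.2.1).Perm (List.finRange n)

variable (A) in
/-- `P` annihilates the generalised multilinear words -/
def Ann {n : ℕ} (P : Equiv.Perm (Fin n) → K) : Prop :=
  ∀ l : List (A × Fin n × A), Ml l → ∀ x : Fin n → A, ∑ σ, P σ • wd l (x ∘ σ) = 0

/-- the part of `P` fixing the first letter -/
def cc {n : ℕ} (P : Equiv.Perm (Fin (n + 1)) → K) (l : List (A × Fin n × A)) (x : Fin n → A) : A :=
  ∑ e, P (Equiv.Perm.decomposeFin.symm (0, e)) • wd l (x ∘ e)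

/-- the part of `P` moving the first letter to `i` -/
def dd {n : ℕ} (P : Equiv.Perm (Fin (n + 1)) → K) (l : List (A × Fin n × A)) (i : Fin n)
    (z : A) (x : Fin n → A) : A :=
  ∑ e, P (Equiv.Perm.decomposeFin.symm (i.succ, e)) • wd l ((Function.update x i z) ∘ e)

theorem sum_decompose {n : ℕ} (f : Equiv.Perm (Fin (n + 1)) → A) :
    ∑ σ, f σ = ∑ e, f (Equiv.Perm.decomposeFin.symm (0, e)) +
      ∑ i : Fin n, ∑ e, f (Equiv.Perm.decomposeFin.symm (i.succ, e)) := by
  rw [← Equiv.sum_comp Equiv.Perm.decomposeFin.symm f, Fintype.sum_prod_type, Fin.sum_univ_succ]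

theorem cons_zero {n : ℕ} (z : A) (x : Fin n → A) (e : Equiv.Perm (Fin n)) :
    (fun k : Fin n => (Fin.cons z x : Fin (n + 1) → A)
      (Equiv.Perm.decomposeFin.symm (0, e) k.succ)) = x ∘ e := by
  funext k
  rw [Equiv.Perm.decomposeFin_symm_apply_succ]
  simp

theorem cons_succ {n : ℕ} (z : A) (x : Fin n → A) (e : Equiv.Perm (Fin n)) (i : Fin n) :
    (fun k : Fin n => (Fin.cons z x : Fin (n + 1) → A)
      (Equiv.Perm.decomposeFin.symm (i.succ, e) k.succ)) = (Function.update x i z) ∘ e := by
  funext k
  rw [Equiv.Perm.decomposeFin_symm_apply_succ]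
  by_cases h : e k = i
  · simp [h]
  · have h1 : (e k).succ ≠ i.succ := fun h' => h (Fin.succ_injective _ h')
    rw [Equiv.swap_apply_of_ne_of_ne (Fin.succ_ne_zero _) h1]
    simp [h]

/-- shift the variables of a word by one -/
def sh {n : ℕ} (l : List (A × Fin n × A)) : List (A × Fin (n + 1) × A) :=
  l.map fun t => (t.1, t.2.1.succ, t.2.2)

theorem wd_sh {n : ℕ} (l : List (A × Fin n × A)) (y : Fin (n + 1) → A) :
    wd (sh l) y = wd l (fun k => y k.succ) := by
  simp [wd, sh, List.map_map, Function.comp_def]

theorem perm_sh {n : ℕ} {l : List (A × Fin n × A)} (hl : Ml l) :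
    (0 :: (sh l).map fun t => t.2.1).Perm (List.finRange (n + 1)) := by
  rw [List.finRange_succ]
  apply List.Perm.cons
  have : (sh l).map (fun t => t.2.1) = (l.map fun t => t.2.1).map Fin.succ := by
    simp [sh, List.map_map, Function.comp_def]
  rw [this]
  exact hl.map _

variable {n : ℕ} {P : Equiv.Perm (Fin (n + 1)) → K}

/-- exchange property, new letter on the left -/
theorem exL (hP : Ann A P) {l : List (A × Fin n × A)} (hl : Ml l) (a z b : A) (x : Fin n → A) :
    a * z * b * cc P l x + ∑ i, a * x i * b * dd P l i z x = 0 := by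
  have hl' : Ml ((a, 0, b) :: sh l) := by
    unfold Ml
    rw [List.map_cons]
    exact perm_sh hl
  have h := hP _ hl' (Fin.cons z x)
  rw [sum_decompose] at h
  rw [← h]
  congr 1
  · unfold cc
    rw [Finset.mul_sum]
    refine Finset.sum_congr rfl fun e _ => ?_
    rw [mul_smul_comm]
    congr 1
    unfold wd
    rw [List.map_cons, List.prod_cons]
    have h2 := wd_sh l ((Fin.cons z x : Fin (n + 1) → A) ∘ (Equiv.Perm.decomposeFin.symm (0, e)))
    have h3 := cons_zero z x e
    simp only [Function.comp_def] at h2 h3 ⊢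
    rw [h3] at h2
    unfold wd at h2
    rw [h2]
    simp
  · refine Finset.sum_congr rfl fun i _ => ?_
    unfold dd
    rw [Finset.mul_sum]
    refine Finset.sum_congr rfl fun e _ => ?_
    rw [mul_smul_comm]
    congr 1
    unfold wd
    rw [List.map_cons, List.prod_cons]
    have h2 := wd_sh l ((Fin.cons z x : Fin (n + 1) → A) ∘
      (Equiv.Perm.decomposeFin.symm (i.succ, e)))
    have h3 := cons_succ z x e i
    simp only [Function.comp_def] at h2 h3 ⊢
    rw [h3] at h2
    unfold wd at h2
    rw [h2]
    simp

/-- exchange property, new letter on the right -/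
theorem exR (hP : Ann A P) {l : List (A × Fin n × A)} (hl : Ml l) (a z b : A) (x : Fin n → A) :
    cc P l x * (a * z * b) + ∑ i, dd P l i z x * (a * x i * b) = 0 := by
  have hl' : Ml (sh l ++ [(a, 0, b)]) := by
    unfold Ml
    rw [List.map_append]
    refine List.Perm.trans ?_ (perm_sh hl)
    simp
  have h := hP _ hl' (Fin.cons z x)
  rw [sum_decompose] at h
  rw [← h]
  congr 1
  · unfold cc
    rw [Finset.sum_mul]
    refine Finset.sum_congr rfl fun e _ => ?_
    rw [smul_mul_assoc]
    congr 1
    unfold wd
    rw [List.map_append, List.prod_append]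
    have h2 := wd_sh l ((Fin.cons z x : Fin (n + 1) → A) ∘ (Equiv.Perm.decomposeFin.symm (0, e)))
    have h3 := cons_zero z x e
    simp only [Function.comp_def] at h2 h3 ⊢
    rw [h3] at h2
    unfold wd at h2
    rw [h2]
    simp
  · refine Finset.sum_congr rfl fun i _ => ?_
    unfold dd
    rw [Finset.sum_mul]
    refine Finset.sum_congr rfl fun e _ => ?_
    rw [smul_mul_assoc]
    congr 1
    unfold wd
    rw [List.map_append, List.prod_append]
    have h2 := wd_sh l ((Fin.cons z x : Fin (n + 1) → A) ∘
      (Equiv.Perm.decomposeFin.symm (i.succ, e)))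
    have h3 := cons_succ z x e i
    simp only [Function.comp_def] at h2 h3 ⊢
    rw [h3] at h2
    unfold wd at h2
    rw [h2]
    simp

variable (K A) in
/-- the multiplication operators, spanned by `z ↦ a * z * b` -/
def MM : Submodule K (A → A) := Submodule.span K {f | ∃ a b : A, f = fun z => a * z * b}

theorem MM_add {m : A → A} (hm : m ∈ MM K A) (z z' : A) : m (z + z') = m z + m z' := by
  induction hm using Submodule.span_induction with
  | mem f hf => obtain ⟨a, b, rfl⟩ := hf; simp [mul_add, add_mul]
  | zero => simp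
  | add f g _ _ hf hg => simp only [Pi.add_apply, hf, hg]; abel
  | smul k f _ hf => simp only [Pi.smul_apply, hf, smul_add]

theorem MM_zero {m : A → A} (hm : m ∈ MM K A) : m 0 = 0 := by
  have := MM_add hm 0 0
  simpa using this

theorem MM_mulR {m : A → A} (hm : m ∈ MM K A) (w : A) : (fun z => m z * w) ∈ MM K A := by
  induction hm using Submodule.span_induction with
  | mem f hf =>
    obtain ⟨a, b, rfl⟩ := hf
    exact Submodule.subset_span ⟨a, b * w, by simp [mul_assoc]⟩
  | zero =>
    have h : (fun z => (0 : A → A) z * w) = 0 := by funext z; simp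
    rw [h]
    exact (MM K A).zero_mem
  | add f g _ _ hf hg =>
    have := (MM K A).add_mem hf hg
    convert this using 1
    funext z
    simp [add_mul]
  | smul k f _ hf =>
    have := (MM K A).smul_mem k hf
    convert this using 1
    funext z
    simp

theorem MM_mulL {m : A → A} (hm : m ∈ MM K A) (w : A) : (fun z => w * m z) ∈ MM K A := by
  induction hm using Submodule.span_induction with
  | mem f hf =>
    obtain ⟨a, b, rfl⟩ := hf
    exact Submodule.subset_span ⟨w * a, b, by simp [mul_assoc]⟩
  | zero =>
    have h : (fun z => w * (0 : A → A) z) = 0 := by funext z; simp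
    rw [h]
    exact (MM K A).zero_mem
  | add f g _ _ hf hg =>
    have := (MM K A).add_mem hf hg
    convert this using 1
    funext z
    simp [mul_add]
  | smul k f _ hf =>
    have := (MM K A).smul_mem k hf
    convert this using 1
    funext z
    simp

theorem MM_comp {m m' : A → A} (hm : m ∈ MM K A) (hm' : m' ∈ MM K A) : m ∘ m' ∈ MM K A := by
  induction hm using Submodule.span_induction with
  | mem f hf =>
    obtain ⟨a, b, rfl⟩ := hf
    exact MM_mulR (MM_mulL hm' a) b
  | zero =>
    have h : (0 : A → A) ∘ m' = 0 := by funext z; simp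
    rw [h]
    exact (MM K A).zero_mem
  | add f g _ _ hf hg =>
    have := (MM K A).add_mem hf hg
    convert this using 1
    funext z
    simp
  | smul k f _ hf =>
    have := (MM K A).smul_mem k hf
    convert this using 1
    funext z
    simp

theorem MM_sum {ι : Type*} (s : Finset ι) (f : ι → A → A) (hf : ∀ i ∈ s, f i ∈ MM K A) :
    (fun z => ∑ i ∈ s, f i z) ∈ MM K A := by
  have := (MM K A).sum_mem hf
  convert this using 1
  funext z
  simp

theorem MM_id : (fun z => z) ∈ MM K A := Submodule.subset_span ⟨1, 1, by simp⟩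

theorem MM_L (a b : A) : (fun z => a * z * b) ∈ MM K A := Submodule.subset_span ⟨a, b, rfl⟩

omit [Algebra K A] in
theorem wd_congr {n : ℕ} {l : List (A × Fin n × A)} {x y : Fin n → A}
    (h : ∀ t ∈ l, x t.2.1 = y t.2.1) : wd l x = wd l y := by
  unfold wd
  congr 1
  apply List.map_congr_left
  intro t ht
  rw [h t ht]

/-- a word is a multiplication operator in each of its letters -/
theorem wd_update {n : ℕ} {l : List (A × Fin n × A)} (hl : Ml l) (j : Fin n) (y : Fin n → A) :
    (fun z => wd l (Function.update y j z)) ∈ MM K A := by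
  have hj : j ∈ l.map fun t => t.2.1 := hl.symm.subset (List.mem_finRange j)
  rw [List.mem_map] at hj
  obtain ⟨t, ht, htj⟩ := hj
  obtain ⟨l1, l2, rfl⟩ := List.append_of_mem ht
  have hnd : ((l1 ++ t :: l2).map fun t => t.2.1).Nodup := hl.nodup_iff.2 (List.nodup_finRange n)
  rw [List.map_append, List.map_cons, List.nodup_append] at hnd
  obtain ⟨-, h2, h3⟩ := hnd
  rw [List.nodup_cons] at h2
  have h4 : ∀ z, wd (l1 ++ t :: l2) (Function.update y j z) =
      (wd l1 y * t.1) * z * (t.2.2 * wd l2 y) := by
    intro z
    have e1 : wd l1 (Function.update y j z) = wd l1 y := by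
      apply wd_congr
      intro s hs
      rw [Function.update_of_ne]
      rw [← htj]
      exact h3 _ (List.mem_map_of_mem hs) _ (List.mem_cons_self ..)
    have e2 : wd l2 (Function.update y j z) = wd l2 y := by
      apply wd_congr
      intro s hs
      rw [Function.update_of_ne]
      rw [← htj]
      intro h
      exact h2.1 (h ▸ List.mem_map_of_mem (f := fun t : A × Fin n × A => t.2.1) hs)
    unfold wd at e1 e2 ⊢
    rw [List.map_append, List.prod_append, List.map_cons, List.prod_cons, e1, e2, htj]
    simp [mul_assoc]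
  simp only [h4]
  exact MM_L _ _

theorem dd_mem {l : List (A × Fin n × A)} (hl : Ml l) (i : Fin n) (x : Fin n → A) :
    (fun z => dd P l i z x) ∈ MM K A := by
  unfold dd
  apply MM_sum
  intro e _
  have h : (fun z => wd l (Function.update x i z ∘ e)) ∈ MM K A := by
    have h1 : ∀ z, Function.update x i z ∘ e = Function.update (x ∘ e) (e.symm i) z := by
      intro z
      funext k
      by_cases hk : e k = i
      · have : k = e.symm i := by rw [← hk]; simp
        subst this
        simp
      · have : k ≠ e.symm i := by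
          rintro rfl
          simp at hk
        simp [hk, this]
    simp only [h1]
    exact wd_update hl _ _
  exact (MM K A).smul_mem _ h

theorem exML (hP : Ann A P) {l : List (A × Fin n × A)} (hl : Ml l) {m : A → A} (hm : m ∈ MM K A)
    (z : A) (x : Fin n → A) :
    m z * cc P l x + ∑ i, m (x i) * dd P l i z x = 0 := by
  induction hm using Submodule.span_induction with
  | mem f hf =>
    obtain ⟨a, b, rfl⟩ := hf
    exact exL hP hl a z b x
  | zero => simp
  | add f g _ _ hf hg =>
    have := congrArg₂ (· + ·) hf hg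
    simp only [add_zero] at this
    rw [← this]
    simp only [Pi.add_apply, add_mul, Finset.sum_add_distrib]
    abel
  | smul k f _ hf =>
    have := congrArg (k • ·) hf
    simp only [smul_zero, smul_add, Finset.smul_sum] at this
    rw [← this]
    simp only [Pi.smul_apply, smul_mul_assoc]

theorem exMR (hP : Ann A P) {l : List (A × Fin n × A)} (hl : Ml l) {m : A → A} (hm : m ∈ MM K A)
    (z : A) (x : Fin n → A) :
    cc P l x * m z + ∑ i, dd P l i z x * m (x i) = 0 := by
  induction hm using Submodule.span_induction with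
  | mem f hf =>
    obtain ⟨a, b, rfl⟩ := hf
    exact exR hP hl a z b x
  | zero => simp
  | add f g _ _ hf hg =>
    have := congrArg₂ (· + ·) hf hg
    simp only [add_zero] at this
    rw [← this]
    simp only [Pi.add_apply, mul_add, Finset.sum_add_distrib]
    abel
  | smul k f _ hf =>
    have := congrArg (k • ·) hf
    simp only [smul_zero, smul_add, Finset.smul_sum] at this
    rw [← this]
    simp only [Pi.smul_apply, mul_smul_comm]

/-- exchange property inside a multiplication operator -/
theorem exIn (hP : Ann A P) {l : List (A × Fin n × A)} (hl : Ml l) {m : A → A} (hm : m ∈ MM K A)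
    (z v : A) (y : Fin n → A) :
    z * m (v * cc P l y) + ∑ j, y j * m (v * dd P l j z y) = 0 := by
  induction hm using Submodule.span_induction with
  | mem f hf =>
    obtain ⟨a, b, rfl⟩ := hf
    have := congrArg (· * b) (exL hP hl 1 z (a * v) y)
    simp only [zero_mul, add_mul, Finset.sum_mul, one_mul] at this
    rw [← this]
    simp only [mul_assoc]
  | zero => simp
  | add f g _ _ hf hg =>
    have := congrArg₂ (· + ·) hf hg
    simp only [add_zero] at this
    rw [← this]
    simp only [Pi.add_apply, mul_add, Finset.sum_add_distrib]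
    abel
  | smul k f _ hf =>
    have := congrArg (k • ·) hf
    simp only [smul_zero, smul_add, Finset.smul_sum] at this
    rw [← this]
    simp only [Pi.smul_apply, mul_smul_comm]

/-- the trace operator -/
def TT (P : Equiv.Perm (Fin (n + 1)) → K) (l : List (A × Fin n × A)) (θ : A → A)
    (x : Fin n → A) : A := ∑ i, dd P l i (θ (x i)) x

theorem TT_trace (hP : Ann A P) {l l' : List (A × Fin n × A)} (hl : Ml l) (hl' : Ml l')
    {θ φ : A → A} (hθ : θ ∈ MM K A) (hφ : φ ∈ MM K A) (w : A) (x y : Fin n → A) :
    TT P l (θ ∘ φ) x * w * cc P l' y = cc P l x * w * TT P l' (φ ∘ θ) y := by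
  have h1 : ∀ i, dd P l i (θ (φ (x i))) x * w * cc P l' y +
      ∑ j, dd P l i (θ (y j)) x * w * dd P l' j (φ (x i)) y = 0 := by
    intro i
    have := exML hP hl' (MM_mulR (MM_comp (dd_mem (P := P) hl i x) hθ) w) (φ (x i)) y
    simpa using this
  have h2 : ∀ j, cc P l x * (w * dd P l' j (φ (θ (y j))) y) +
      ∑ i, dd P l i (θ (y j)) x * (w * dd P l' j (φ (x i)) y) = 0 := by
    intro j
    have := exMR hP hl (MM_mulL (MM_comp (dd_mem (P := P) hl' j y) hφ) w) (θ (y j)) x
    simpa using this
  have h3 : TT P l (θ ∘ φ) x * w * cc P l' y = - ∑ i, ∑ j,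
      dd P l i (θ (y j)) x * w * dd P l' j (φ (x i)) y := by
    unfold TT
    rw [Finset.sum_mul, Finset.sum_mul, ← Finset.sum_neg_distrib]
    refine Finset.sum_congr rfl fun i _ => ?_
    exact eq_neg_of_add_eq_zero_left (h1 i)
  have h4 : cc P l x * w * TT P l' (φ ∘ θ) y = - ∑ i, ∑ j,
      dd P l i (θ (y j)) x * w * dd P l' j (φ (x i)) y := by
    unfold TT
    rw [Finset.mul_sum, Finset.sum_comm, ← Finset.sum_neg_distrib]
    refine Finset.sum_congr rfl fun j _ => ?_
    have := eq_neg_of_add_eq_zero_left (h2 j)
    simp only [mul_assoc] at this ⊢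
    exact this
  rw [h3, h4]

theorem TT_comm (hP : Ann A P) {l l' : List (A × Fin n × A)} (hl : Ml l) (hl' : Ml l')
    {θ φ : A → A} (hθ : θ ∈ MM K A) (hφ : φ ∈ MM K A) (w : A) (x y : Fin n → A) :
    TT P l (θ ∘ φ) x * w * cc P l' y = TT P l (φ ∘ θ) x * w * cc P l' y := by
  rw [TT_trace hP hl hl' hθ hφ]
  have := TT_trace hP hl hl' (MM_comp hφ hθ) MM_id w x y
  exact this.symm

theorem TT_add {l : List (A × Fin n × A)} (hl : Ml l) (θ φ : A → A) (x : Fin n → A) :
    TT P l (fun z => θ z + φ z) x = TT P l θ x + TT P l φ x := by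
  unfold TT
  rw [← Finset.sum_add_distrib]
  refine Finset.sum_congr rfl fun i _ => ?_
  exact MM_add (dd_mem (P := P) hl i x) _ _

theorem TT_neg {l : List (A × Fin n × A)} (hl : Ml l) (θ : A → A) (x : Fin n → A) :
    TT P l (fun z => - θ z) x = - TT P l θ x := by
  have h := TT_add (P := P) hl θ (fun z => - θ z) x
  have h0 : TT P l (fun z => θ z + -θ z) x = 0 := by
    unfold TT
    apply Finset.sum_eq_zero
    intro i _
    simpa using MM_zero (dd_mem (P := P) hl i x)
  rw [h0] at h
  exact eq_neg_of_add_eq_zero_right h.symm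

theorem TT_zero {l : List (A × Fin n × A)} (hl : Ml l) (x : Fin n → A) :
    TT P l (fun _ => 0) x = 0 := by
  unfold TT
  apply Finset.sum_eq_zero
  intro i _
  exact MM_zero (dd_mem (P := P) hl i x)

/-- the trace of left multiplication by a sum of commutators vanishes -/
theorem TT_left (hP : Ann A P) {l l' : List (A × Fin n × A)} (hl : Ml l) (hl' : Ml l')
    {I : Set A} {u : A} (hu : u ∈ AddSubgroup.closure {c | ∃ a ∈ I, ∃ b ∈ I, c = a * b - b * a})
    (v w : A) (x y : Fin n → A) :
    TT P l (fun z => u * z * v) x * w * cc P l' y = 0 := by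
  induction hu using AddSubgroup.closure_induction with
  | mem u hu =>
    obtain ⟨a, -, b, -, rfl⟩ := hu
    have h1 : (fun z => (a * b - b * a) * z * v) =
        fun z => ((fun z => a * z) ∘ (fun z => b * z * v)) z +
          (fun z => - ((fun z => b * z * v) ∘ (fun z => a * z)) z) z := by
      funext z
      simp only [Function.comp_def]
      rw [sub_mul, sub_mul, sub_eq_add_neg]
      simp only [mul_assoc]
    have ha : (fun z => a * z) ∈ MM K A := Submodule.subset_span ⟨a, 1, by simp⟩
    have hb : (fun z => b * z * v) ∈ MM K A := MM_L b v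
    rw [h1, TT_add hl, TT_neg hl, add_mul, add_mul, neg_mul, neg_mul,
      TT_comm hP hl hl' ha hb, add_neg_cancel]
  | zero =>
    have h : (fun z : A => (0 : A) * z * v) = fun _ => 0 := by funext z; simp
    rw [h, TT_zero hl]
    simp
  | add u u' _ _ hu hu' =>
    have h1 : (fun z => (u + u') * z * v) = fun z => (fun z => u * z * v) z +
        (fun z => u' * z * v) z := by
      funext z
      simp [add_mul]
    rw [h1, TT_add hl, add_mul, add_mul, hu, hu', add_zero]
  | neg u _ hu =>
    have h1 : (fun z => (-u) * z * v) = fun z => - (fun z => u * z * v) z := by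
      funext z
      simp
    rw [h1, TT_neg hl, neg_mul, neg_mul, hu, neg_zero]

theorem TT_smul {l : List (A × Fin n × A)} (hl : Ml l) (k : K) (θ : A → A) (x : Fin n → A) :
    TT P l (fun z => k • θ z) x = k • TT P l θ x := by
  unfold TT
  rw [Finset.smul_sum]
  refine Finset.sum_congr rfl fun i _ => ?_
  have h := dd_mem (P := P) hl i x
  have key : ∀ m ∈ MM K A, ∀ z, m (k • z) = k • m z := by
    intro m hm z
    induction hm using Submodule.span_induction with
    | mem f hf => obtain ⟨a, b, rfl⟩ := hf; simp
    | zero => simp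
    | add f g _ _ hf hg => simp only [Pi.add_apply, hf, hg, smul_add]
    | smul k' f _ hf => simp only [Pi.smul_apply, hf]; exact smul_comm _ _ _
  exact key _ h _

/-- the trace of `z ↦ v * m z` vanishes for `v` in the perfect ideal -/
theorem TT_in (hP : Ann A P) {l l' : List (A × Fin n × A)} (hl : Ml l) (hl' : Ml l')
    {I : Set A} (hIr : ∀ a, ∀ x ∈ I, x * a ∈ I)
    (hI : ∀ x ∈ I, x ∈ AddSubgroup.closure {c | ∃ a ∈ I, ∃ b ∈ I, c = a * b - b * a})
    {v : A} (hv : v ∈ I) {m : A → A} (hm : m ∈ MM K A) (w : A) (x y : Fin n → A) :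
    TT P l (fun z => v * m z) x * w * cc P l' y = 0 := by
  induction hm using Submodule.span_induction with
  | mem f hf =>
    obtain ⟨a, b, rfl⟩ := hf
    have h := TT_left hP hl hl' (hI _ (hIr a v hv)) b w x y
    have h1 : (fun z => v * (a * z * b)) = fun z => v * a * z * b := by
      funext z; simp [mul_assoc]
    rw [h1]
    exact h
  | zero =>
    have h : (fun z : A => v * (0 : A → A) z) = fun _ => 0 := by funext z; simp
    rw [h, TT_zero hl]
    simp
  | add f g _ _ hf hg =>
    have h1 : (fun z => v * (f + g) z) = fun z => (fun z => v * f z) z +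
        (fun z => v * g z) z := by
      funext z
      simp [mul_add]
    rw [h1, TT_add hl, add_mul, add_mul, hf, hg, add_zero]
  | smul k f _ hf =>
    have h1 : (fun z => v * (k • f) z) = fun z => k • (fun z => v * f z) z := by
      funext z
      simp
    rw [h1, TT_smul hl, smul_mul_assoc, smul_mul_assoc, hf, smul_zero]

/-- the main vanishing -/
theorem vanish (hP : Ann A P) {l l' l'' : List (A × Fin n × A)} (hl : Ml l) (hl' : Ml l')
    (hl'' : Ml l'') {I : Set A} (hIr : ∀ a, ∀ x ∈ I, x * a ∈ I)
    (hI : ∀ x ∈ I, x ∈ AddSubgroup.closure {c | ∃ a ∈ I, ∃ b ∈ I, c = a * b - b * a})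
    {v : A} (hv : v ∈ I) (u w : A) (x y y' : Fin n → A) :
    v * cc P l'' y * u * cc P l x * w * cc P l' y' = 0 := by
  have hmu : (fun z => z * u) ∈ MM K A := Submodule.subset_span ⟨1, u, by simp⟩
  have h1 := exML hP hl hmu (v * cc P l'' y) x
  have h2 : ∀ i, x i * u * dd P l i (v * cc P l'' y) x +
      ∑ j, y j * (u * dd P l i (v * dd P l'' j (x i) y) x) = 0 := by
    intro i
    have := exIn hP hl'' (MM_mulL (dd_mem (P := P) hl i x) u) (x i) v y
    simpa [mul_assoc] using this
  have h3 : v * cc P l'' y * u * cc P l x =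
      ∑ j, y j * (u * TT P l (fun z => v * dd P l'' j z y) x) := by
    rw [eq_neg_of_add_eq_zero_left h1]
    unfold TT
    simp only [Finset.mul_sum]
    rw [Finset.sum_comm, ← Finset.sum_neg_distrib]
    refine Finset.sum_congr rfl fun i _ => ?_
    rw [eq_neg_of_add_eq_zero_left (h2 i), neg_neg]
  rw [h3, Finset.sum_mul, Finset.sum_mul]
  apply Finset.sum_eq_zero
  intro j _
  have h4 := TT_in hP hl hl' hIr hI hv (dd_mem (P := P) hl'' j y) w x y'
  rw [mul_assoc, mul_assoc, mul_assoc, ← mul_assoc (TT P l _ x), h4]
  simp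

end

end Pool.Agent.N22.LV
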