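import Pool.Agent.H67.PI.Red
import Pool.Agent.N22.LV.Core

/-! Existence of annihilators of generalised words for algebras with a polynomial identity
over a field (via the exponential bound for the codimensions). -/

namespace Pool.Agent.N22.LV

open Finset Pool.Agent.H67.PI

universe u v

open Classical in
/-- the good arrangements of all letters -/
noncomputable def goodSet (m d : ℕ) : Finset (List (Fin m)) :=
  ((List.finRange m).permutations.toFinset).filter fun w => Good d w

theorem mem_goodSet {m d : ℕ} {w : List (Fin m)} :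
    w ∈ goodSet m d ↔ w.Perm (List.finRange m) ∧ Good d w := by
  simp [goodSet, List.mem_permutations]

theorem card_goodSet (m d : ℕ) : (goodSet m d).card ≤ (d + 1) ^ m * (d + 1) ^ m := by
  classical
  have h1 : ∀ w : List (Fin m), ∃ χ : Fin m → Fin (d + 1), w ∈ goodSet m d → Col χ w := by
    intro w
    by_cases hw : w ∈ goodSet m d
    · rw [mem_goodSet] at hw
      obtain ⟨χ, hχ⟩ := exists_col_fin w (hw.1.nodup_iff.2 (List.nodup_finRange m)) hw.2
      exact ⟨χ, fun _ => hχ⟩
    · exact ⟨fun _ => 0, fun h => absurd h hw⟩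
  choose χ hχ using h1
  have h2 : (goodSet m d).card ≤
      (Finset.univ : Finset ((Fin m → Fin (d + 1)) × (Fin m → Fin (d + 1)))).card := by
    apply Finset.card_le_card_of_injOn
      (fun w => (χ w, fun i : Fin m => ((w.map (χ w)).getD i 0)))
    · intro w _
      simp
    · intro w hw w' hw' h
      simp only [Prod.mk.injEq] at h
      obtain ⟨hχχ, hg⟩ := h
      have hp := (mem_goodSet.1 (Finset.mem_coe.1 hw)).1
      have hp' := (mem_goodSet.1 (Finset.mem_coe.1 hw')).1
      have hl : w.length = m := by simpa using hp.length_eq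
      have hl' : w'.length = m := by simpa using hp'.length_eq
      apply col_inj (χ w) w w' (hp.trans hp'.symm) (hχ w hw)
      · rw [hχχ]
        exact hχ w' hw'
      · apply List.ext_getElem
        · simp [hl, hl']
        · intro i h3 h4
          have h5 := congrFun hg ⟨i, by simpa [hl] using h3⟩
          rw [← hχχ] at h5
          rw [List.getD_eq_getElem _ _ h3, List.getD_eq_getElem _ _ h4] at h5
          exact h5
  simpa using h2

section

variable {K : Type v} [Field K] {A : Type u} [Ring A] [Algebra K A]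

variable (K A) in
/-- the span of the multilinear monomial functions -/
def Mon (m : ℕ) : Submodule K ((Fin m → A) → A) :=
  Submodule.span K {f | ∃ w : List (Fin m), w.Perm (List.finRange m) ∧
    f = fun a => (w.map a).prod}

theorem Mon_le {d : ℕ} (c : Equiv.Perm (Fin d) → K) (hc1 : c 1 = 1)
    (hc : ∀ a : Fin d → A, ∑ τ, c τ • (List.ofFn fun k => a (τ k)).prod = 0) (m : ℕ) :
    Mon K A m ≤ Submodule.span K
      ((fun w => fun a : Fin m → A => (w.map a).prod) '' (goodSet m d : Set (List (Fin m)))) := by
  classical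
  unfold Mon
  rw [Submodule.span_le]
  rintro f ⟨w, hw, rfl⟩
  obtain ⟨r, hr1, hr2⟩ := reduce (C := A) (⊤ : Submodule K A) (by simp) c hc1
    (fun a _ => hc a) w
  have h1 : (fun a : Fin m → A => (w.map a).prod) =
      ∑ v ∈ r.support, r v • fun a : Fin m → A => (v.map a).prod := by
    funext a
    rw [hr2 a (by simp), Finsupp.linearCombination_apply, Finsupp.sum]
    simp
  rw [h1]
  apply Submodule.sum_mem
  intro v hv
  apply Submodule.smul_mem
  apply Submodule.subset_span
  exact ⟨v, Finset.mem_coe.2 (mem_goodSet.2 ⟨(hr1 v hv).1.trans hw, (hr1 v hv).2⟩), rfl⟩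

theorem Mon_finrank {d : ℕ} (c : Equiv.Perm (Fin d) → K) (hc1 : c 1 = 1)
    (hc : ∀ a : Fin d → A, ∑ τ, c τ • (List.ofFn fun k => a (τ k)).prod = 0) (m : ℕ) :
    FiniteDimensional K (Mon K A m) ∧
      Module.finrank K (Mon K A m) ≤ (d + 1) ^ m * (d + 1) ^ m := by
  classical
  set s : Finset ((Fin m → A) → A) :=
    (goodSet m d).image fun w => fun a : Fin m → A => (w.map a).prod with hs
  have h1 : Mon K A m ≤ Submodule.span K (s : Set ((Fin m → A) → A)) := by
    rw [hs, Finset.coe_image]
    exact Mon_le c hc1 hc m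
  have : FiniteDimensional K (Submodule.span K (s : Set ((Fin m → A) → A))) :=
    FiniteDimensional.span_finset K s
  refine ⟨Submodule.finiteDimensional_of_le h1, ?_⟩
  calc Module.finrank K (Mon K A m)
      ≤ Module.finrank K (Submodule.span K (s : Set ((Fin m → A) → A))) :=
        Submodule.finrank_mono h1
    _ ≤ s.card := finrank_span_finset_le_card s
    _ ≤ (goodSet m d).card := Finset.card_image_le
    _ ≤ _ := card_goodSet m d

/-- permuting the letters -/
def rho {m : ℕ} (h : Equiv.Perm (Fin m)) : Mon K A m →ₗ[K] Mon K A m :=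
  (LinearMap.funLeft K A (fun a : Fin m → A => a ∘ h)).restrict (by
    intro f hf
    unfold Mon at hf ⊢
    induction hf using Submodule.span_induction with
    | mem f hf =>
      obtain ⟨w, hw, rfl⟩ := hf
      apply Submodule.subset_span
      refine ⟨w.map h, ?_, ?_⟩
      · have h1 := hw.map h
        refine h1.trans ?_
        apply List.Subperm.perm_of_length_le
        · apply List.Nodup.subperm
          · exact (List.nodup_finRange m).map h.injective
          · intro x _
            exact List.mem_finRange x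
        · simp
      · funext a
        simp [LinearMap.funLeft_apply, List.map_map]
    | zero => rw [map_zero]; exact Submodule.zero_mem _
    | add f g _ _ hf hg => rw [map_add]; exact Submodule.add_mem _ hf hg
    | smul k f _ hf => rw [map_smul]; exact Submodule.smul_mem _ k hf)

theorem rho_apply {m : ℕ} (h : Equiv.Perm (Fin m)) (f : Mon K A m) (a : Fin m → A) :
    (rho h f).1 a = f.1 (a ∘ h) := rfl

/-- the action on the letters with second coordinate one -/
def hat {n : ℕ} (σ : Equiv.Perm (Fin n)) : Equiv.Perm (Fin n × Fin 3) where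
  toFun q := if q.2 = 1 then (σ q.1, q.2) else q
  invFun q := if q.2 = 1 then (σ.symm q.1, q.2) else q
  left_inv q := by
    by_cases h : q.2 = 1 <;> simp [h]
    rw [← h]
  right_inv q := by
    by_cases h : q.2 = 1 <;> simp [h]
    rw [← h]

/-- the same on `Fin (n * 3)` -/
def hatF {n : ℕ} (σ : Equiv.Perm (Fin n)) : Equiv.Perm (Fin (n * 3)) :=
  (finProdFinEquiv.symm.trans (hat σ)).trans finProdFinEquiv

theorem hatF_apply {n : ℕ} (σ : Equiv.Perm (Fin n)) (q : Fin n × Fin 3) :
    hatF σ (finProdFinEquiv q) = finProdFinEquiv (if q.2 = 1 then (σ q.1, q.2) else q) := by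
  simp [hatF, hat]

/-- a generalised word is a monomial function in its coefficients and letters -/
theorem wd_eq_mon {n : ℕ} {l : List (A × Fin n × A)} (hl : Ml l) (x : Fin n → A) :
    ∃ (f : Mon K A (n * 3)) (a : Fin (n * 3) → A), ∀ σ : Equiv.Perm (Fin n),
      wd l (x ∘ σ) = f.1 (a ∘ hatF σ) := by
  have hlen : l.length = n := by simpa using hl.length_eq
  obtain ⟨t, rfl⟩ := exists_ofFn l hlen
  set G : Fin n → List (Fin (n * 3)) := fun k =>
    [finProdFinEquiv (k, 0), finProdFinEquiv ((t k).2.1, 1), finProdFinEquiv (k, 2)] with hG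
  set w : List (Fin (n * 3)) := (List.ofFn G).flatten with hw
  have hwp : w.Perm (List.finRange (n * 3)) := by
    apply List.Perm.symm
    apply List.Subperm.perm_of_length_le
    · apply List.Nodup.subperm (List.nodup_finRange _)
      intro p _
      obtain ⟨⟨k, j⟩, rfl⟩ := finProdFinEquiv.surjective p
      rw [hw, List.mem_flatten]
      have hj : j = 0 ∨ j = 1 ∨ j = 2 := by omega
      rcases hj with rfl | rfl | rfl
      · exact ⟨G k, (List.mem_ofFn' _ _).2 ⟨k, rfl⟩, by simp [hG]⟩
      · have hk : k ∈ (List.ofFn t).map fun t => t.2.1 := hl.symm.subset (List.mem_finRange k)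
        rw [List.mem_map] at hk
        obtain ⟨s, hs, hsk⟩ := hk
        obtain ⟨k', rfl⟩ := (List.mem_ofFn' _ _).1 hs
        exact ⟨G k', (List.mem_ofFn' _ _).2 ⟨k', rfl⟩, by simp [hG, hsk]⟩
      · exact ⟨G k, (List.mem_ofFn' _ _).2 ⟨k, rfl⟩, by simp [hG]⟩
    · rw [hw, List.length_flatten, List.map_ofFn]
      have h1 : (List.length ∘ G) = fun _ => 3 := by
        funext k
        simp [hG]
      rw [h1]
      simp
  set a : Fin (n * 3) → A := fun p =>
    let q := finProdFinEquiv.symm p
    if q.2 = 0 then (t q.1).1 else if q.2 = 1 then x q.1 else (t q.1).2.2 with ha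
  refine ⟨⟨fun a => (w.map a).prod, Submodule.subset_span ⟨w, hwp, rfl⟩⟩, a, fun σ => ?_⟩
  show wd (List.ofFn t) (x ∘ σ) = (w.map (a ∘ hatF σ)).prod
  rw [hw, flatten_map_prod]
  unfold wd
  rw [List.map_ofFn]
  congr 2
  funext k
  simp only [hG, Function.comp_def, List.map_cons, List.map_nil, List.prod_cons, List.prod_nil,
    hatF_apply, ha]
  simp [mul_assoc]

end

theorem exists_fact (C : ℕ) : ∃ n : ℕ, C ^ n < n.factorial := by
  have h := FloorSemiring.tendsto_pow_div_factorial_atTop (K := ℝ) (C : ℝ)
  have h1 := (h.eventually (gt_mem_nhds (show (0 : ℝ) < 1 by norm_num))).exists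
  obtain ⟨n, hn⟩ := h1
  refine ⟨n, ?_⟩
  rw [div_lt_one (by positivity)] at hn
  exact_mod_cast hn

/-- a multilinear identity over a field gives an annihilator of the generalised words -/
theorem exists_ann {K : Type v} [Field K] {A : Type u} [Ring A] [Algebra K A] {d : ℕ}
    (c : Equiv.Perm (Fin d) → K) (hc1 : c 1 = 1)
    (hc : ∀ a : Fin d → A, ∑ τ, c τ • (List.ofFn fun k => a (τ k)).prod = 0) :
    ∃ (n : ℕ) (P : Equiv.Perm (Fin n) → K), P 1 = 1 ∧ Ann A P := by
  classical
  obtain ⟨n, hn⟩ := exists_fact ((d + 1) ^ 12)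
  obtain ⟨hfd, hfr⟩ := Mon_finrank c hc1 hc (n * 3)
  set Φ : (Equiv.Perm (Fin n) → K) →ₗ[K] (Mon K A (n * 3) →ₗ[K] Mon K A (n * 3)) :=
    Fintype.linearCombination K (fun σ => rho (hatF σ)) with hΦ
  have hlt : Module.finrank K (Mon K A (n * 3) →ₗ[K] Mon K A (n * 3)) <
      Module.finrank K (Equiv.Perm (Fin n) → K) := by
    rw [Module.finrank_linearMap, Module.finrank_fintype_fun_eq_card, Fintype.card_perm,
      Fintype.card_fin]
    refine lt_of_le_of_lt (Nat.mul_le_mul hfr hfr) ?_
    refine lt_of_eq_of_lt ?_ hn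
    rw [← pow_add, ← pow_add, ← pow_mul]
    congr 1
    ring
  have hker := LinearMap.ker_ne_bot_of_finrank_lt (K := K) (V := Equiv.Perm (Fin n) → K)
    (V₂ := Mon K A (n * 3) →ₗ[K] Mon K A (n * 3)) (f := Φ) hlt
  obtain ⟨P, hPk, hP0⟩ := Submodule.exists_mem_ne_zero_of_ne_bot hker
  have hPann : ∀ l : List (A × Fin n × A), Ml l → ∀ x : Fin n → A,
      ∑ σ, P σ • wd l (x ∘ σ) = 0 := by
    intro l hl x
    obtain ⟨f, a, hfa⟩ := wd_eq_mon (K := K) hl x
    have h1 : Φ P = 0 := hPk
    have h2 := congrArg (fun g : Mon K A (n * 3) →ₗ[K] Mon K A (n * 3) => (g f).1 a) h1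
    simp only [hΦ, Fintype.linearCombination_apply, LinearMap.sum_apply, LinearMap.smul_apply,
      LinearMap.zero_apply] at h2
    rw [Submodule.coe_sum] at h2
    simp only [Finset.sum_apply, Submodule.coe_smul, Pi.smul_apply, rho_apply] at h2
    simp only [hfa]
    simpa using h2
  obtain ⟨σ0, hσ0⟩ : ∃ σ0, P σ0 ≠ 0 := by
    by_contra h
    push Not at h
    exact hP0 (funext h)
  refine ⟨n, fun σ => (P σ0)⁻¹ * P (σ * σ0), ?_, ?_⟩
  · simp [hσ0]
  · intro l hl x
    set l' : List (A × Fin n × A) := l.map fun t => (t.1, σ0⁻¹ t.2.1, t.2.2) with hl'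
    have hMl : Ml l' := by
      unfold Ml at hl ⊢
      rw [hl', List.map_map]
      have h1 := hl.map (σ0⁻¹ : Equiv.Perm (Fin n))
      rw [List.map_map] at h1
      refine List.Perm.trans h1 ?_
      apply List.Subperm.perm_of_length_le
      · apply List.Nodup.subperm
        · exact (List.nodup_finRange n).map (Equiv.injective _)
        · intro x _
          exact List.mem_finRange x
      · simp
    have h2 : ∀ σ : Equiv.Perm (Fin n), wd l (x ∘ σ) = wd l' (x ∘ (σ * σ0 : Equiv.Perm (Fin n))) := by
      intro σ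
      unfold wd
      rw [hl', List.map_map]
      congr 1
      apply List.map_congr_left
      intro t _
      simp
    simp only [h2, mul_smul]
    rw [← Finset.smul_sum]
    have h3 := hPann l' hMl x
    rw [← Equiv.sum_comp (Equiv.mulRight σ0)] at h3
    simp only [Equiv.coe_mulRight] at h3
    rw [h3, smul_zero]

end Pool.Agent.N22.LV
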