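import Pool.Agent.N22.LV.Core

/-! Induction: a perfect ideal in a ring with a nontrivial annihilator of words is zero. -/

namespace Pool.Agent.N22.LV

open Finset

universe u v

theorem nil_step {A : Type u} [Ring A] (I : AddSubgroup A)
    (hI : ∀ x ∈ I, x ∈ AddSubgroup.closure {c | ∃ a ∈ I, ∃ b ∈ I, c = a * b - b * a})
    (p : A) (h : ∀ c ∈ I, ∀ d ∈ I, p * c * d = 0) : ∀ c ∈ I, p * c = 0 := by
  intro c hc
  have hc' := hI c hc
  clear hc
  induction hc' using AddSubgroup.closure_induction with
  | mem u hu =>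
    obtain ⟨c1, h1, c2, h2, rfl⟩ := hu
    rw [mul_sub, ← mul_assoc, ← mul_assoc, h c1 h1 c2 h2, h c2 h2 c1 h1, sub_zero]
  | zero => simp
  | add u u' _ _ hu hu' => rw [mul_add, hu, hu', add_zero]
  | neg u _ hu => rw [mul_neg, hu, neg_zero]

theorem nil_of_four {A : Type u} [Ring A] (I : AddSubgroup A)
    (hI : ∀ x ∈ I, x ∈ AddSubgroup.closure {c | ∃ a ∈ I, ∃ b ∈ I, c = a * b - b * a})
    (h : ∀ a ∈ I, ∀ b ∈ I, ∀ c ∈ I, ∀ d ∈ I, a * b * c * d = 0) : ∀ x ∈ I, x = 0 := by
  have h3 : ∀ a ∈ I, ∀ b ∈ I, ∀ c ∈ I, a * b * c = 0 := fun a ha b hb =>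
    nil_step I hI (a * b) (h a ha b hb)
  have h2 : ∀ a ∈ I, ∀ b ∈ I, a * b = 0 := fun a ha => nil_step I hI a (h3 a ha)
  intro x hx
  have := nil_step I hI 1 (by simpa using h2) x hx
  simpa using this

variable {K : Type v} [CommRing K]

/-- A perfect two-sided ideal of a ring whose generalised words are annihilated by an element
with constant coefficient one is zero. -/
theorem core (n : ℕ) : ∀ (A : Type u) [Ring A] [Algebra K A] (P : Equiv.Perm (Fin n) → K),
    P 1 = 1 → Ann A P → ∀ I : AddSubgroup A, (∀ a, ∀ x ∈ I, a * x ∈ I) →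
    (∀ a, ∀ x ∈ I, x * a ∈ I) →
    (∀ x ∈ I, x ∈ AddSubgroup.closure {c | ∃ a ∈ I, ∃ b ∈ I, c = a * b - b * a}) →
    ∀ x ∈ I, x = 0 := by
  induction n with
  | zero =>
    intro A _ _ P hP1 hP I _ _ _ x _
    have h := hP [] (by simp [Ml]) (fun i => i.elim0)
    have h1 : ∀ σ : Equiv.Perm (Fin 0), σ = 1 := fun σ => Subsingleton.elim _ _
    simp only [wd, List.map_nil, List.prod_nil] at h
    rw [Fintype.sum_eq_single 1 (fun σ hσ => absurd (h1 σ) hσ), hP1, one_smul] at h
    rw [← mul_one x, h, mul_zero]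
  | succ n ih =>
    intro A _ _ P hP1 hP I hIl hIr hI
    set J : Ideal A := Ideal.span {r | ∃ l : List (A × Fin n × A), Ml l ∧ ∃ x s,
      r = cc P l x * s} with hJ
    have hJ2 : J.IsTwoSided := by
      constructor
      intro a b ha
      rw [hJ] at ha ⊢
      induction ha using Submodule.span_induction with
      | mem r hr =>
        obtain ⟨l, hl, x, s, rfl⟩ := hr
        exact Submodule.subset_span ⟨l, hl, x, s * b, by rw [mul_assoc]⟩
      | zero => rw [zero_mul]; exact Submodule.zero_mem _
      | add r r' _ _ hr hr' => rw [add_mul]; exact Submodule.add_mem _ hr hr'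
      | smul k r _ hr =>
        rw [smul_eq_mul, mul_assoc]
        exact Submodule.smul_mem _ k hr
    -- the quotient
    have hq : ∀ x ∈ I.map (Ideal.Quotient.mk J).toAddMonoidHom, x = 0 := by
      apply ih (A ⧸ J) (fun e => P (Equiv.Perm.decomposeFin.symm (0, e)))
      · rw [Equiv.Perm.decomposeFin_symm_of_one, Equiv.swap_self]
        exact hP1
      · intro l' hl' x'
        have hsur : ∀ y : A ⧸ J, ∃ a : A, Ideal.Quotient.mk J a = y :=
          Ideal.Quotient.mk_surjective
        choose g hg using hsur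
        set l : List (A × Fin n × A) := l'.map fun t => (g t.1, t.2.1, g t.2.2) with hl
        have hMl : Ml l := by
          unfold Ml at hl' ⊢
          rw [hl, List.map_map]
          exact hl'
        have hw : ∀ e : Equiv.Perm (Fin n), wd l' (x' ∘ e) =
            Ideal.Quotient.mkₐ K J (wd l ((g ∘ x') ∘ e)) := by
          intro e
          unfold wd
          rw [map_list_prod, hl, List.map_map, List.map_map]
          congr 1
          apply List.map_congr_left
          intro t _
          simp [hg]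
        simp only [hw, ← map_smul]
        rw [← map_sum]
        have : cc P l (g ∘ x') ∈ J :=
          Submodule.subset_span ⟨l, hMl, _, 1, by rw [mul_one]⟩
        exact Ideal.Quotient.eq_zero_iff_mem.2 this
      · intro a x0 hx0
        obtain ⟨x, hx, rfl⟩ := AddSubgroup.mem_map.1 hx0
        obtain ⟨a, rfl⟩ := Ideal.Quotient.mk_surjective a
        exact AddSubgroup.mem_map.2 ⟨a * x, hIl a x hx, by simp⟩
      · intro a x0 hx0
        obtain ⟨x, hx, rfl⟩ := AddSubgroup.mem_map.1 hx0
        obtain ⟨a, rfl⟩ := Ideal.Quotient.mk_surjective a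
        exact AddSubgroup.mem_map.2 ⟨x * a, hIr a x hx, by simp⟩
      · intro x0 hx0
        obtain ⟨x, hx, rfl⟩ := AddSubgroup.mem_map.1 hx0
        have hx' := hI x hx
        clear hx hx0
        induction hx' using AddSubgroup.closure_induction with
        | mem u hu =>
          obtain ⟨a, ha, b, hb, rfl⟩ := hu
          apply AddSubgroup.subset_closure
          refine ⟨_, AddSubgroup.mem_map_of_mem _ ha, _, AddSubgroup.mem_map_of_mem _ hb, ?_⟩
          simp
        | zero => rw [map_zero]; exact AddSubgroup.zero_mem _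
        | add u u' _ _ hu hu' => rw [map_add]; exact AddSubgroup.add_mem _ hu hu'
        | neg u _ hu => rw [map_neg]; exact AddSubgroup.neg_mem _ hu
    have hIJ : ∀ x ∈ I, x ∈ J := by
      intro x hx
      exact Ideal.Quotient.eq_zero_iff_mem.1 (hq _ (AddSubgroup.mem_map_of_mem _ hx))
    have hIr' : ∀ a, ∀ x ∈ (I : Set A), x * a ∈ (I : Set A) := hIr
    have hI' : ∀ x ∈ (I : Set A), x ∈ AddSubgroup.closure
      {c | ∃ a ∈ (I : Set A), ∃ b ∈ (I : Set A), c = a * b - b * a} := hI
    -- products
    have L1 : ∀ v ∈ I, ∀ l'' l : List (A × Fin n × A), Ml l'' → Ml l → ∀ y x : Fin n → A,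
        ∀ u, ∀ q3 ∈ J, ∀ w, v * cc P l'' y * u * cc P l x * w * q3 = 0 := by
      intro v hv l'' l hl'' hl y x u q3 hq3
      rw [hJ] at hq3
      induction hq3 using Submodule.span_induction with
      | mem r hr =>
        obtain ⟨l', hl', y', s, rfl⟩ := hr
        intro w
        rw [← mul_assoc, vanish hP hl hl' hl'' hIr' hI' hv u w x y y', zero_mul]
      | zero => intro w; rw [mul_zero]
      | add r r' _ _ hr hr' => intro w; rw [mul_add, hr, hr', add_zero]
      | smul k r _ hr =>
        intro w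
        have := hr (w * k)
        rw [smul_eq_mul, ← mul_assoc, ← this]
        simp only [mul_assoc]
    have L2 : ∀ v ∈ I, ∀ l'' : List (A × Fin n × A), Ml l'' → ∀ y : Fin n → A,
        ∀ q2 ∈ J, ∀ u, ∀ q3 ∈ J, v * cc P l'' y * u * q2 * q3 = 0 := by
      intro v hv l'' hl'' y q2 hq2
      rw [hJ] at hq2
      induction hq2 using Submodule.span_induction with
      | mem r hr =>
        obtain ⟨l, hl, x, s, rfl⟩ := hr
        intro u q3 hq3
        rw [← mul_assoc]
        exact L1 v hv l'' l hl'' hl y x u q3 hq3 s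
      | zero => intro u q3 _; rw [mul_zero, zero_mul]
      | add r r' _ _ hr hr' =>
        intro u q3 hq3
        rw [mul_add, add_mul, hr u q3 hq3, hr' u q3 hq3, add_zero]
      | smul k r _ hr =>
        intro u q3 hq3
        have := hr (u * k) q3 hq3
        rw [smul_eq_mul, ← mul_assoc, ← this]
        simp only [mul_assoc]
    have L3 : ∀ q1 ∈ J, ∀ v ∈ I, ∀ q2 ∈ J, ∀ q3 ∈ J, v * q1 * q2 * q3 = 0 := by
      intro q1 hq1
      rw [hJ] at hq1
      induction hq1 using Submodule.span_induction with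
      | mem r hr =>
        obtain ⟨l'', hl'', y, s, rfl⟩ := hr
        intro v hv q2 hq2 q3 hq3
        rw [← mul_assoc]
        exact L2 v hv l'' hl'' y q2 hq2 s q3 hq3
      | zero => intro v _ q2 _ q3 _; simp
      | add r r' _ _ hr hr' =>
        intro v hv q2 hq2 q3 hq3
        rw [mul_add, add_mul, add_mul, hr v hv q2 hq2 q3 hq3, hr' v hv q2 hq2 q3 hq3, add_zero]
      | smul k r _ hr =>
        intro v hv q2 hq2 q3 hq3
        have := hr (v * k) (hIr k v hv) q2 hq2 q3 hq3
        rw [smul_eq_mul, ← mul_assoc, ← this]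
    apply nil_of_four I hI
    intro a ha b hb c hc d hd
    exact L3 b (hIJ b hb) a ha c (hIJ c hc) d (hIJ d hd)

end Pool.Agent.N22.LV
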