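import Pool.Agent.H67.PI.Lin
import Pool.Agent.N22.LV.Ind
import Pool.Agent.N22.LV.Exist

/-! An identity on an ideal containing all commutators gives an identity on the whole ring;
the case of algebras over a field. -/

namespace Pool.Agent.N22.LV

open Finset Pool.Agent.H67.PI

universe u v

section

variable {F : Type v} [Field F]

/-- shift operator -/
def opX (F : Type v) [Field F] (i : ℕ) : Module.End F (ℕ → F) where
  toFun v := fun j => if j = i then v (i + 1) else 0
  map_add' v w := by funext j; by_cases h : j = i <;> simp [h]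
  map_smul' k v := by funext j; by_cases h : j = i <;> simp [h]

/-- coordinate projection -/
def opD (F : Type v) [Field F] (i : ℕ) : Module.End F (ℕ → F) where
  toFun v := fun j => if j = i then v i else 0
  map_add' v w := by funext j; by_cases h : j = i <;> simp [h]
  map_smul' k v := by funext j; by_cases h : j = i <;> simp [h]

theorem op_comm (i : ℕ) : opD F i * opX F i - opX F i * opD F i = opX F i := by
  refine LinearMap.ext fun v => ?_
  funext j
  simp only [LinearMap.sub_apply, Module.End.mul_apply, Pi.sub_apply]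
  show (if j = i then (if i = i then v (i + 1) else 0) else 0) -
    (if j = i then (if i + 1 = i then v i else 0) else 0) = if j = i then v (i + 1) else 0
  simp

theorem prod_opX (L : List ℕ) (v : ℕ → F) (j : ℕ) :
    ((L.map (opX F)).prod v) j = if L = List.range' j L.length then v (j + L.length) else 0 := by
  induction L generalizing j with
  | nil => simp
  | cons i L ih =>
    rw [List.map_cons, List.prod_cons, Module.End.mul_apply]
    show (if j = i then ((L.map (opX F)).prod v) (i + 1) else 0) = _
    rw [ih, List.length_cons, List.range'_succ]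
    by_cases h : j = i
    · subst h
      simp only [if_true, List.cons.injEq, true_and]
      congr 1
      congr 1
      ring
    · rw [if_neg h, if_neg]
      intro h'
      simp only [List.cons.injEq] at h'
      exact h h'.1.symm

/-- substitution of commutators in a multilinear polynomial -/
def fC {d : ℕ} (c : Equiv.Perm (Fin d) → F) : FreeAlgebra F (Fin (d * 2)) :=
  ∑ τ : Equiv.Perm (Fin d), c τ • (List.ofFn fun k =>
    FreeAlgebra.ι F (finProdFinEquiv (τ k, (0 : Fin 2))) *
      FreeAlgebra.ι F (finProdFinEquiv (τ k, (1 : Fin 2))) -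
    FreeAlgebra.ι F (finProdFinEquiv (τ k, (1 : Fin 2))) *
      FreeAlgebra.ι F (finProdFinEquiv (τ k, (0 : Fin 2)))).prod

theorem lift_fC {d : ℕ} (c : Equiv.Perm (Fin d) → F) {E : Type*} [Ring E] [Algebra F E]
    (a : Fin (d * 2) → E) :
    FreeAlgebra.lift F a (fC c) = ∑ τ : Equiv.Perm (Fin d), c τ • (List.ofFn fun k =>
        (a (finProdFinEquiv (τ k, (0 : Fin 2))) * a (finProdFinEquiv (τ k, (1 : Fin 2))) -
        a (finProdFinEquiv (τ k, (1 : Fin 2))) * a (finProdFinEquiv (τ k, (0 : Fin 2))))).prod := by
  rw [fC, map_sum]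
  refine Finset.sum_congr rfl fun τ _ => ?_
  rw [map_smul, map_list_prod, List.map_ofFn]
  congr 3
  funext k
  simp

theorem fC_ne_zero {d : ℕ} (c : Equiv.Perm (Fin d) → F) (hc1 : c 1 = 1) : fC c ≠ 0 := by
  intro h
  set a : Fin (d * 2) → Module.End F (ℕ → F) := fun q =>
    if (finProdFinEquiv.symm q).2 = 0 then opD F (finProdFinEquiv.symm q).1.val
    else opX F (finProdFinEquiv.symm q).1.val with ha
  have h1 := lift_fC c a
  rw [h, map_zero] at h1
  have h2 : ∀ τ : Equiv.Perm (Fin d), (List.ofFn fun k =>
        (a (finProdFinEquiv (τ k, (0 : Fin 2))) * a (finProdFinEquiv (τ k, (1 : Fin 2))) -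
        a (finProdFinEquiv (τ k, (1 : Fin 2))) * a (finProdFinEquiv (τ k, (0 : Fin 2))))) =
        (List.ofFn fun k => (τ k).val).map (opX F) := by
    intro τ
    rw [List.map_ofFn]
    congr 1
    funext k
    simp only [ha, Equiv.symm_apply_apply, Function.comp_def]
    simpa using op_comm (F := F) (τ k).val
  simp only [h2] at h1
  have h3 := congrArg (fun g : Module.End F (ℕ → F) => g (fun _ => 1) 0) h1
  simp only [LinearMap.zero_apply, LinearMap.sum_apply, LinearMap.smul_apply, Finset.sum_apply,
    Pi.smul_apply, prod_opX, Pi.zero_apply] at h3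
  rw [Finset.sum_eq_single (1 : Equiv.Perm (Fin d))] at h3
  · rw [hc1, if_pos] at h3
    · simp at h3
    · apply List.ext_getElem
      · simp
      · intro i h4 h5
        simp
  · intro τ _ hτ
    rw [if_neg, smul_zero]
    intro h4
    apply hτ
    ext k
    have h5 := congrArg (fun l : List ℕ => l[k.val]?) h4
    simpa using h5
  · intro h4
    exact absurd (Finset.mem_univ _) h4

/-- a multilinear identity on a subspace containing all commutators gives a multilinear
identity on the whole algebra -/
theorem comm_ident {C : Type u} [Ring C] [Algebra F C] (S : Submodule F C)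
    (hcomm : ∀ a b : C, a * b - b * a ∈ S) {d : ℕ} (c : Equiv.Perm (Fin d) → F) (hc1 : c 1 = 1)
    (hc : ∀ a : Fin d → C, (∀ i, a i ∈ S) →
      ∑ τ, c τ • (List.ofFn fun k => a (τ k)).prod = 0) :
    ∃ (d' : ℕ) (c' : Equiv.Perm (Fin d') → F), c' 1 = 1 ∧
      ∀ a : Fin d' → C, ∑ τ, c' τ • (List.ofFn fun k => a (τ k)).prod = 0 := by
  obtain ⟨d', c', h1, h2⟩ := linearise (⊤ : Submodule F C) (fC c) (fC_ne_zero c hc1) (by
    intro a _
    rw [lift_fC]
    exact hc (fun k => a (finProdFinEquiv (k, (0 : Fin 2))) * a (finProdFinEquiv (k, (1 : Fin 2))) -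
        a (finProdFinEquiv (k, (1 : Fin 2))) * a (finProdFinEquiv (k, (0 : Fin 2))))
      (fun i => hcomm _ _))
  exact ⟨d', c', h1, fun a => h2 a (by simp)⟩

/-- A perfect ideal containing all commutators, in an algebra over a field, which satisfies a
polynomial identity is zero. -/
theorem field_case {C : Type u} [Ring C] [Algebra F C] (S : Submodule F C)
    (hl : ∀ a, ∀ x ∈ S, a * x ∈ S) (hr : ∀ a, ∀ x ∈ S, x * a ∈ S)
    (hcomm : ∀ a b : C, a * b - b * a ∈ S)
    (hS : ∀ x ∈ S, x ∈ AddSubgroup.closure {c | ∃ a ∈ S, ∃ b ∈ S, c = a * b - b * a})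
    {n : ℕ} (f : FreeAlgebra F (Fin n)) (hf : f ≠ 0)
    (h : ∀ a : Fin n → C, (∀ i, a i ∈ S) → FreeAlgebra.lift F a f = 0) : ∀ x ∈ S, x = 0 := by
  obtain ⟨d, c, hc1, hc⟩ := linearise S f hf h
  obtain ⟨d', c', hc1', hc'⟩ := comm_ident S hcomm c hc1 hc
  obtain ⟨m, P, hP1, hP⟩ := exists_ann c' hc1' hc'
  exact core m C P hP1 hP S.toAddSubgroup hl hr hS

end

end Pool.Agent.N22.LV
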