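import Mathlib

/-! PI rings (a unit element is not required). -/

namespace Pool.Agent.N22.LV

universe u

/-- value of a polynomial with integer coefficients and noncommuting variables (a finitely
supported function on words) in the ring obtained from `R` by adjoining a unit -/
noncomputable def evalPoly {R : Type u} [NonUnitalRing R] {n : ℕ} (f : List (Fin n) →₀ ℤ)
    (r : Fin n → R) : Unitization ℤ R :=
  f.sum fun w c => c • (w.map fun i => (r i : Unitization ℤ R)).prod

/-- PI rings: some polynomial identity has a coefficient `1` or `-1` -/
def IsPI (R : Type u) [NonUnitalRing R] : Prop :=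
  ∃ (n : ℕ) (f : List (Fin n) →₀ ℤ), (∃ w, f w = 1 ∨ f w = -1) ∧
    ∀ r : Fin n → R, evalPoly f r = 0

end Pool.Agent.N22.LV
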