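import Pool.Agent.N22.LV.Comm
import Pool.Agent.N22.LV.Defs

/-! PI rings which coincide with their derived Lie ring are zero. -/

namespace Pool.Agent.N22.LV

open Finset Pool.Agent.H67.PI TensorProduct

universe u

section

variable {F : Type} [Field F]

/-- the polynomial with coefficients in a field -/
noncomputable def polyF (F : Type) [Field F] {n : ℕ} (f : List (Fin n) →₀ ℤ) :
    FreeAlgebra F (Fin n) :=
  f.sum fun w c => (c : F) • (w.map (FreeAlgebra.ι F)).prod

theorem polyF_ne_zero {n : ℕ} (f : List (Fin n) →₀ ℤ) {w : List (Fin n)}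
    (hw : f w = 1 ∨ f w = -1) : polyF F f ≠ 0 := by
  classical
  intro h
  have h1 := congrArg (fun g => (FreeAlgebra.basisFreeMonoid F (Fin n)).repr g
    (FreeMonoid.ofList w)) h
  simp only [map_zero, Finsupp.coe_zero, Pi.zero_apply] at h1
  have h2 : ∀ v : List (Fin n), (v.map (FreeAlgebra.ι F)).prod =
      FreeAlgebra.basisFreeMonoid F (Fin n) (FreeMonoid.ofList v) := by
    intro v
    rw [basis_eq]
    rfl
  unfold polyF Finsupp.sum at h1
  simp only [h2, map_sum, map_smul, Module.Basis.repr_self, Finsupp.coe_finsetSum,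
    Finset.sum_apply, Finsupp.coe_smul, Pi.smul_apply] at h1
  rw [Finset.sum_eq_single w] at h1
  · rw [Finsupp.single_eq_same, smul_eq_mul, mul_one] at h1
    rcases hw with hw | hw <;> rw [hw] at h1 <;> simp at h1
  · intro v _ hv
    rw [Finsupp.single_eq_of_ne, smul_zero]
    intro h'
    exact hv (FreeMonoid.ofList.injective h').symm
  · intro hw'
    rw [Finsupp.notMem_support_iff] at hw'
    rw [hw']
    simp

theorem lift_polyF {n : ℕ} (f : List (Fin n) →₀ ℤ) {C : Type*} [Ring C] [Algebra F C]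
    (a : Fin n → C) : FreeAlgebra.lift F a (polyF F f) =
      f.sum fun w c => c • (w.map a).prod := by
  unfold polyF Finsupp.sum
  rw [map_sum]
  refine Finset.sum_congr rfl fun w _ => ?_
  rw [map_smul, map_list_prod, List.map_map]
  have : ((FreeAlgebra.lift F a : FreeAlgebra F (Fin n) → C) ∘ FreeAlgebra.ι F) = a := by
    funext i
    simp
  rw [this, Int.cast_smul_eq_zsmul]

end

section

variable {A : Type u} [Ring A]

/-- base change to a field kills a perfect ideal with a polynomial identity -/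
theorem tensor_case (F : Type) [Field F] (I : AddSubgroup A)
    (hmulI : ∀ a ∈ I, ∀ b ∈ I, a * b ∈ I)
    (hdecA : ∀ a : A, ∃ m : ℤ, a - m ∈ I)
    (hI : ∀ x ∈ I, x ∈ AddSubgroup.closure {c | ∃ a ∈ I, ∃ b ∈ I, c = a * b - b * a})
    (hz : ∀ (z : F), ∀ r ∈ I, ∃ r' ∈ I, z ⊗ₜ[ℤ] r = (1 : F) ⊗ₜ[ℤ] r')
    {n : ℕ} (f : List (Fin n) →₀ ℤ) {w : List (Fin n)} (hw : f w = 1 ∨ f w = -1)
    (hf : ∀ r : Fin n → A, (∀ i, r i ∈ I) → f.sum (fun w c => c • (w.map r).prod) = 0) :
    ∀ r ∈ I, (1 : F) ⊗ₜ[ℤ] r = 0 := by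
  set φ : A →ₐ[ℤ] F ⊗[ℤ] A := Algebra.TensorProduct.includeRight with hφ
  have hφa : ∀ a, φ a = (1 : F) ⊗ₜ[ℤ] a := fun a => rfl
  set S : Submodule F (F ⊗[ℤ] A) :=
    { carrier := φ '' I
      add_mem' := by
        rintro _ _ ⟨r, hr, rfl⟩ ⟨s, hs, rfl⟩
        exact ⟨r + s, I.add_mem hr hs, by simp⟩
      zero_mem' := ⟨0, I.zero_mem, by simp⟩
      smul_mem' := by
        rintro z _ ⟨r, hr, rfl⟩
        obtain ⟨r', hr', h⟩ := hz z r hr
        refine ⟨r', hr', ?_⟩
        rw [hφa, hφa, ← h, TensorProduct.smul_tmul', smul_eq_mul, mul_one] } with hS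
  have hmem : ∀ x, x ∈ S ↔ ∃ r ∈ I, φ r = x := fun x => Iff.rfl
  have hdec : ∀ x : F ⊗[ℤ] A, ∃ z : F, x - algebraMap F (F ⊗[ℤ] A) z ∈ S := by
    intro x
    induction x using TensorProduct.induction_on with
    | zero => exact ⟨0, by simp⟩
    | tmul z a =>
      obtain ⟨m, hm⟩ := hdecA a
      obtain ⟨r', hr', h⟩ := hz z _ hm
      refine ⟨z * m, (hmem _).2 ⟨r', hr', ?_⟩⟩
      rw [hφa, ← h, TensorProduct.tmul_sub]
      congr 1
      rw [Algebra.TensorProduct.algebraMap_apply]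
      have h1 : (m : A) = m • (1 : A) := by simp
      rw [h1, ← TensorProduct.smul_tmul]
      congr 1
      simp [mul_comm]
    | add x y hx hy =>
      obtain ⟨z, hz1⟩ := hx
      obtain ⟨z', hz2⟩ := hy
      refine ⟨z + z', ?_⟩
      have := S.add_mem hz1 hz2
      rw [map_add]
      convert this using 1
      abel
  have hmul : ∀ x ∈ S, ∀ y ∈ S, x * y ∈ S := by
    intro x hx y hy
    obtain ⟨r, hr, rfl⟩ := (hmem x).1 hx
    obtain ⟨s, hs, rfl⟩ := (hmem y).1 hy
    exact (hmem _).2 ⟨r * s, hmulI r hr s hs, by simp⟩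
  have hl : ∀ a, ∀ x ∈ S, a * x ∈ S := by
    intro a x hx
    obtain ⟨z, hz1⟩ := hdec a
    have h1 : a * x = z • x + (a - algebraMap F (F ⊗[ℤ] A) z) * x := by
      rw [sub_mul, ← Algebra.smul_def]
      abel
    rw [h1]
    exact S.add_mem (S.smul_mem z hx) (hmul _ hz1 _ hx)
  have hr : ∀ a, ∀ x ∈ S, x * a ∈ S := by
    intro a x hx
    obtain ⟨z, hz1⟩ := hdec a
    have h1 : x * a = z • x + x * (a - algebraMap F (F ⊗[ℤ] A) z) := by
      rw [mul_sub, ← Algebra.commutes, ← Algebra.smul_def]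
      abel
    rw [h1]
    exact S.add_mem (S.smul_mem z hx) (hmul _ hx _ hz1)
  have hcomm : ∀ a b : F ⊗[ℤ] A, a * b - b * a ∈ S := by
    intro a b
    obtain ⟨z, hz1⟩ := hdec a
    have h1 : a * b - b * a = (a - algebraMap F (F ⊗[ℤ] A) z) * b -
        b * (a - algebraMap F (F ⊗[ℤ] A) z) := by
      rw [sub_mul, mul_sub, Algebra.commutes z b]
      abel
    rw [h1]
    exact S.sub_mem (hr _ _ hz1) (hl _ _ hz1)
  have hperf : ∀ x ∈ S, x ∈ AddSubgroup.closure {c | ∃ a ∈ S, ∃ b ∈ S, c = a * b - b * a} := by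
    intro x hx
    obtain ⟨s, hs, rfl⟩ := (hmem x).1 hx
    have hs' := hI s hs
    clear hx hs
    induction hs' using AddSubgroup.closure_induction with
    | mem u hu =>
      obtain ⟨a, ha, b, hb, rfl⟩ := hu
      apply AddSubgroup.subset_closure
      exact ⟨φ a, ⟨a, ha, rfl⟩, φ b, ⟨b, hb, rfl⟩, by rw [map_sub, map_mul, map_mul]⟩
    | zero => rw [map_zero]; exact AddSubgroup.zero_mem _
    | add u u' _ _ hu hu' =>
      rw [map_add]
      exact AddSubgroup.add_mem _ hu hu'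
    | neg u _ hu =>
      rw [map_neg]
      exact AddSubgroup.neg_mem _ hu
  have key := field_case S hl hr hcomm hperf (polyF F f) (polyF_ne_zero f hw) (by
    intro a ha
    have ha' : ∀ i, ∃ r ∈ I, φ r = a i := fun i => (hmem _).1 (ha i)
    choose g hgI hg using ha'
    rw [lift_polyF]
    have h1 := congrArg φ (hf g hgI)
    unfold Finsupp.sum at h1
    rw [map_sum, map_zero] at h1
    unfold Finsupp.sum
    rw [← h1]
    refine Finset.sum_congr rfl fun v _ => ?_
    have h2 : (φ : A → F ⊗[ℤ] A) ∘ g = a := funext hg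
    rw [map_zsmul, map_list_prod, List.map_map, h2])
  intro r hr
  exact key _ ⟨r, hr, rfl⟩

/-- a perfect PI ideal is divisible by primes -/
theorem div_prime (I : AddSubgroup A)
    (hmulI : ∀ a ∈ I, ∀ b ∈ I, a * b ∈ I)
    (hdecA : ∀ a : A, ∃ m : ℤ, a - m ∈ I) (huniq : ∀ m : ℤ, (m : A) ∈ I → m = 0)
    (hI : ∀ x ∈ I, x ∈ AddSubgroup.closure {c | ∃ a ∈ I, ∃ b ∈ I, c = a * b - b * a})
    {n : ℕ} (f : List (Fin n) →₀ ℤ) {w : List (Fin n)} (hw : f w = 1 ∨ f w = -1)
    (hf : ∀ r : Fin n → A, (∀ i, r i ∈ I) → f.sum (fun w c => c • (w.map r).prod) = 0)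
    (p : ℕ) [Fact p.Prime] : ∀ r ∈ I, ∃ r' ∈ I, r = (p : ℤ) • r' := by
  have h1 := tensor_case (ZMod p) I hmulI hdecA hI (by
    intro z r hr
    refine ⟨z.val • r, I.nsmul_mem hr _, ?_⟩
    rw [← natCast_zsmul, ← TensorProduct.smul_tmul]
    congr 1
    simp) f hw hf
  intro r hr
  have h2 := h1 r hr
  set N : AddSubgroup A := (zsmulAddGroupHom (α := A) (p : ℤ)).range with hN
  let _ : Module (ZMod p) (A ⧸ N) := AddCommGroup.zmodModule (by
    intro x
    obtain ⟨a, rfl⟩ := QuotientAddGroup.mk_surjective x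
    rw [← QuotientAddGroup.mk_nsmul, QuotientAddGroup.eq_zero_iff]
    exact ⟨a, by simp⟩)
  set ψ : ZMod p →ₗ[ℤ] A →ₗ[ℤ] (A ⧸ N) := LinearMap.mk₂ ℤ
    (fun z a => z • (QuotientAddGroup.mk a : A ⧸ N))
    (by intro z z' a; rw [add_smul])
    (by intro k z a; exact smul_assoc k z _)
    (by intro z a a'; rw [QuotientAddGroup.mk_add, smul_add])
    (by intro k z a; rw [QuotientAddGroup.mk_zsmul, smul_comm]) with hψ
  have h3 := congrArg (TensorProduct.lift ψ) h2
  rw [TensorProduct.lift.tmul, map_zero] at h3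
  have h4 : (1 : ZMod p) • (QuotientAddGroup.mk r : A ⧸ N) = 0 := h3
  rw [one_smul, QuotientAddGroup.eq_zero_iff] at h4
  obtain ⟨a, ha⟩ := h4
  have ha' : (p : ℤ) • a = r := ha
  obtain ⟨m, hm⟩ := hdecA a
  have h5 : (p : ℤ) * m = 0 := by
    apply huniq
    have : (((p : ℤ) * m : ℤ) : A) = r - (p : ℤ) • (a - m) := by
      rw [smul_sub, ha']
      simp
    rw [this]
    exact I.sub_mem hr (I.zsmul_mem hm _)
  have hp : (p : ℤ) ≠ 0 := by exact_mod_cast (Fact.out : p.Prime).ne_zero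
  have hm0 : m = 0 := by
    rcases mul_eq_zero.1 h5 with h | h
    · exact absurd h hp
    · exact h
  subst hm0
  exact ⟨a, by simpa using hm, ha'.symm⟩

theorem div_all (I : AddSubgroup A)
    (hp : ∀ p : ℕ, p.Prime → ∀ r ∈ I, ∃ r' ∈ I, r = (p : ℤ) • r') (m : ℕ) :
    m ≠ 0 → ∀ r ∈ I, ∃ r' ∈ I, r = (m : ℤ) • r' := by
  induction m using Nat.recOnMul with
  | zero => intro h; exact absurd rfl h
  | one => intro _ r hr; exact ⟨r, hr, by simp⟩
  | prime p hpp => intro _; exact hp p hpp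
  | mul a b ha hb =>
    intro hab r hr
    obtain ⟨r1, hr1, h1⟩ := ha (fun h => hab (by rw [h, zero_mul])) r hr
    obtain ⟨r2, hr2, h2⟩ := hb (fun h => hab (by rw [h, mul_zero])) r1 hr1
    refine ⟨r2, hr2, ?_⟩
    rw [h1, h2, smul_smul, Nat.cast_mul]

theorem torsion_all (I : AddSubgroup A)
    (hmulI : ∀ a ∈ I, ∀ b ∈ I, a * b ∈ I)
    (hdecA : ∀ a : A, ∃ m : ℤ, a - m ∈ I)
    (hI : ∀ x ∈ I, x ∈ AddSubgroup.closure {c | ∃ a ∈ I, ∃ b ∈ I, c = a * b - b * a})
    {n : ℕ} (f : List (Fin n) →₀ ℤ) {w : List (Fin n)} (hw : f w = 1 ∨ f w = -1)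
    (hf : ∀ r : Fin n → A, (∀ i, r i ∈ I) → f.sum (fun w c => c • (w.map r).prod) = 0)
    (hdiv : ∀ m : ℕ, m ≠ 0 → ∀ r ∈ I, ∃ r' ∈ I, r = (m : ℤ) • r') :
    ∀ r ∈ I, ∃ m : ℤ, m ≠ 0 ∧ m • r = 0 := by
  have h1 := tensor_case ℚ I hmulI hdecA hI (by
    intro z r hr
    obtain ⟨r1, hr1, h1⟩ := hdiv z.den z.den_ne_zero r hr
    refine ⟨z.num • r1, I.zsmul_mem hr1 _, ?_⟩
    rw [h1, ← TensorProduct.smul_tmul, ← TensorProduct.smul_tmul]
    congr 1
    simp [Rat.den_mul_eq_num]) f hw hf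
  intro r hr
  have h2 := h1 r hr
  have h3 : IsLocalizedModule (nonZeroDivisors ℤ) (TensorProduct.mk ℤ ℚ A 1) :=
    (isLocalizedModule_iff_isBaseChange (nonZeroDivisors ℤ) ℚ (TensorProduct.mk ℤ ℚ A 1)).2
      (TensorProduct.isBaseChange ℤ A ℚ)
  obtain ⟨c, hc⟩ := (IsLocalizedModule.eq_zero_iff (nonZeroDivisors ℤ)
    (TensorProduct.mk ℤ ℚ A 1)).1 h2
  exact ⟨c.1, nonZeroDivisors.ne_zero c.2, hc⟩

theorem zero_all (I : AddSubgroup A)
    (hmulI : ∀ a ∈ I, ∀ b ∈ I, a * b ∈ I)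
    (hdecA : ∀ a : A, ∃ m : ℤ, a - m ∈ I) (huniq : ∀ m : ℤ, (m : A) ∈ I → m = 0)
    (hI : ∀ x ∈ I, x ∈ AddSubgroup.closure {c | ∃ a ∈ I, ∃ b ∈ I, c = a * b - b * a})
    {n : ℕ} (f : List (Fin n) →₀ ℤ) {w : List (Fin n)} (hw : f w = 1 ∨ f w = -1)
    (hf : ∀ r : Fin n → A, (∀ i, r i ∈ I) → f.sum (fun w c => c • (w.map r).prod) = 0) :
    ∀ r ∈ I, r = 0 := by
  have hp : ∀ p : ℕ, p.Prime → ∀ r ∈ I, ∃ r' ∈ I, r = (p : ℤ) • r' := by
    intro p hpp
    have : Fact p.Prime := ⟨hpp⟩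
    exact div_prime I hmulI hdecA huniq hI f hw hf p
  have hdiv := div_all I hp
  have htor := torsion_all I hmulI hdecA hI f hw hf hdiv
  have hzero : ∀ r ∈ I, ∀ s ∈ I, r * s = 0 := by
    intro r hr s hs
    obtain ⟨m, hm, hmr⟩ := htor r hr
    obtain ⟨s', hs', h⟩ := hdiv m.natAbs (by simpa using hm) s hs
    rw [h, mul_smul_comm, ← smul_mul_assoc]
    rcases Int.natAbs_eq m with h1 | h1
    · rw [← h1, hmr, zero_mul]
    · have : ((m.natAbs : ℤ)) = -m := by omega
      rw [this, neg_smul, hmr]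
      simp
  intro r hr
  have := hI r hr
  clear hr
  induction this using AddSubgroup.closure_induction with
  | mem u hu =>
    obtain ⟨a, ha, b, hb, rfl⟩ := hu
    rw [hzero a ha b hb, hzero b hb a ha, sub_zero]
  | zero => rfl
  | add u u' _ _ hu hu' => rw [hu, hu', add_zero]
  | neg u _ hu => rw [hu, neg_zero]

end

/-- **Theorem.** A PI ring which is generated additively by its commutators is zero. -/
theorem perfect_zero (R : Type u) [NonUnitalRing R] (hPI : IsPI R)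
    (hR : AddSubgroup.closure {x : R | ∃ a b : R, x = a * b - b * a} = ⊤) : ∀ x : R, x = 0 := by
  obtain ⟨n, f, ⟨w, hw⟩, hf⟩ := hPI
  set ι : R →+ Unitization ℤ R :=
    { toFun := fun r => (r : Unitization ℤ R)
      map_zero' := Unitization.inr_zero ℤ
      map_add' := Unitization.inr_add ℤ } with hι
  have hιa : ∀ r, ι r = (r : Unitization ℤ R) := fun r => rfl
  have hcast : ∀ m : ℤ, (m : Unitization ℤ R) = Unitization.inl m := by
    intro m
    have h1 := (map_intCast (Unitization.inlRingHom ℤ R) m).symm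
    exact h1.trans (congrArg Unitization.inl (Int.cast_id))
  have key := zero_all (A := Unitization ℤ R) ι.range
    (by
      rintro _ ⟨a, rfl⟩ _ ⟨b, rfl⟩
      exact ⟨a * b, by simp [hιa]⟩)
    (by
      intro a
      refine ⟨a.fst, a.snd, ?_⟩
      rw [hιa, hcast, eq_sub_iff_add_eq, add_comm]
      exact Unitization.inl_fst_add_inr_snd_eq a)
    (by
      rintro m ⟨r, hr⟩
      have := congrArg (fun a : Unitization ℤ R => a.fst) hr
      simp only [hιa, hcast] at this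
      simpa using this.symm)
    (by
      rintro _ ⟨s, rfl⟩
      have hs : s ∈ AddSubgroup.closure {x : R | ∃ a b : R, x = a * b - b * a} := by
        rw [hR]; trivial
      induction hs using AddSubgroup.closure_induction with
      | mem u hu =>
        obtain ⟨a, b, rfl⟩ := hu
        apply AddSubgroup.subset_closure
        exact ⟨ι a, ⟨a, rfl⟩, ι b, ⟨b, rfl⟩, by simp [hιa]⟩
      | zero => rw [map_zero]; exact AddSubgroup.zero_mem _
      | add u u' _ _ hu hu' => rw [map_add]; exact AddSubgroup.add_mem _ hu hu'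
      | neg u _ hu => rw [map_neg]; exact AddSubgroup.neg_mem _ hu)
    f hw
    (by
      intro r hr
      choose g hg using hr
      have h1 := hf g
      unfold evalPoly at h1
      rw [← h1]
      have : r = fun i => (g i : Unitization ℤ R) := by
        funext i
        rw [← hιa, hg]
      rw [this])
  intro x
  have := key (ι x) ⟨x, rfl⟩
  rw [hιa] at this
  exact Unitization.inr_injective (R := ℤ) (this.trans (Unitization.inr_zero ℤ).symm)

end Pool.Agent.N22.LV
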